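import Pool.Agent.Q85.RC.Final

/-!
# Completeness of right translates in `L¹_φ(ℝ₊)`: the general statement is false

We construct a (nondecreasing) weight `φ` with `α_± = 0`, a function `0 ≤ f ∈ L¹_φ(ℝ₊)` whose
transform has no zero in `Im z ≤ 0` and satisfies `limsup_{y → -∞} log|f̂(iy)|/|y| = 0`, and a
real valued `g ∈ L^∞_φ(ℝ₊)`, not a.e. zero, with `∫_0^∞ f(t) g(t+τ) dt = 0` for all `τ > 0`.
-/

set_option autoImplicit false

namespace Pool.Agent.Results.MP_27fa52_an.RightTranslatesFail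

open MeasureTheory Set Filter Topology

/-- A weight with `α_+ = α_- = 0`: measurable, `≥ 1`, submultiplicative on `ℝ`,
`log φ(t) / t → 0` as `t → ±∞`. -/
def IsWeight (φ : ℝ → ℝ) : Prop :=
  Measurable φ ∧ (∀ t, 1 ≤ φ t) ∧ (∀ t τ, φ (t + τ) ≤ φ t * φ τ) ∧
  Tendsto (fun t => Real.log (φ t) / t) atTop (𝓝 0) ∧
  Tendsto (fun t => Real.log (φ t) / t) atBot (𝓝 0)

/-- `f ∈ L^1_φ(ℝ_+)`: `f` is measurable, vanishes on `(-∞, 0)` and `∫_0^∞ |f| φ < ∞`. -/
def InL1 (φ : ℝ → ℝ) (f : ℝ → ℂ) : Prop :=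
  Measurable f ∧ (∀ t, t < 0 → f t = 0) ∧ IntegrableOn (fun t => ‖f t‖ * φ t) (Set.Ioi 0)

/-- `g ∈ L^∞_φ(ℝ_+)`: `g` is measurable and `|g| ≤ K φ` on `[0, ∞)` for a constant `K`. -/
def InLinf (φ : ℝ → ℝ) (g : ℝ → ℂ) : Prop :=
  Measurable g ∧ ∃ K : ℝ, ∀ t : ℝ, 0 ≤ t → ‖g t‖ ≤ K * φ t

/-- The transform `∫_0^∞ f(t) e^{-itz} dt`. -/
noncomputable def hat (f : ℝ → ℂ) (z : ℂ) : ℂ :=
  ∫ t in Set.Ioi (0:ℝ), f t * Complex.exp (-(Complex.I * (t:ℂ) * z))

/-- The two conditions on the transform of `f`: it has no zero in `Im z ≤ 0` and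
`limsup_{y → -∞} log |hat f (iy)| / |y| = 0` (a limsup of extended real numbers). -/
def TransformConditions (f : ℝ → ℂ) : Prop :=
  (∀ z : ℂ, z.im ≤ 0 → hat f z ≠ 0) ∧
  Filter.limsup (fun y : ℝ => ((Real.log ‖hat f (y * Complex.I)‖ / |y| : ℝ) : EReal)) atBot = 0

/-- **The negated form of Q1**, with `φ` nondecreasing, `f` real and nonnegative, `g` real. -/
theorem result : ∃ (φ : ℝ → ℝ) (f g : ℝ → ℂ),
    IsWeight φ ∧ InL1 φ f ∧ TransformConditions f ∧ InLinf φ g ∧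
    ¬ (∀ᵐ t ∂(volume.restrict (Set.Ioi (0:ℝ))), g t = 0) ∧
    (∀ τ : ℝ, 0 < τ → ∫ t in Set.Ioi (0:ℝ), f t * g (t + τ) = 0) ∧
    Monotone φ ∧ (∀ t, 0 ≤ (f t).re ∧ (f t).im = 0) ∧ (∀ t, (g t).im = 0) := by
  obtain ⟨S, h0, hV, hR⟩ := RC.exists_seq
  obtain ⟨G, hG1, hG2, hG3, hG4⟩ := RC.exists_real h0 hV hR
  have hb : ∀ z : ℂ, z.im ≤ 0 →
      (2 / 3) / ‖1 + Complex.I * z‖ ≤ ‖hat (fun t => (RC.ff S t : ℂ)) z‖ ∧
      ‖hat (fun t => (RC.ff S t : ℂ)) z‖ ≤ (4 / 3) / ‖1 + Complex.I * z‖ := by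
    intro z hz
    have e : hat (fun t => (RC.ff S t : ℂ)) z = ∑' j, RC.hj S j z := RC.ff_hat h0 hR z hz
    rw [e]
    exact RC.hat_bounds h0 hR z hz
  refine ⟨RC.phi S, fun t => (RC.ff S t : ℂ), fun t => (G t : ℂ), ?_, ?_, ?_, ?_, ?_, ?_,
    RC.phi_mono hV, ?_, ?_⟩
  · exact ⟨(RC.phi_mono hV).measurable, fun t => Real.one_le_exp (RC.qI_nonneg hV t),
      RC.phi_sub hV hR, RC.phi_top hV hR, RC.phi_bot hV⟩
  · refine ⟨Complex.measurable_ofReal.comp (RC.ff_measurable h0 hR), fun t ht => ?_,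
      RC.ff_weighted h0 hV hR⟩
    show (RC.ff S t : ℂ) = 0
    rw [RC.ff_zero h0 hR t ht.le, Complex.ofReal_zero]
  · refine ⟨fun z hz h => ?_, ?_⟩
    · have h1 := (hb z hz).1
      rw [h, norm_zero] at h1
      have h2 := RC.den_pos z hz
      have h3 : (0:ℝ) < 2 / 3 / ‖1 + Complex.I * z‖ := by positivity
      linarith
    · apply Tendsto.limsup_eq
      have ht := RC.log_div_tendsto
        (fun y : ℝ => ‖hat (fun t => (RC.ff S t : ℂ)) (y * Complex.I)‖) (fun y hy => by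
          have h1 := hb (y * Complex.I) (by simpa using hy)
          have e : ‖1 + Complex.I * ((y : ℂ) * Complex.I)‖ = 1 + |y| := by
            have e2 : 1 + Complex.I * ((y : ℂ) * Complex.I) = ((1 + |y| : ℝ) : ℂ) := by
              rw [abs_of_nonpos hy]
              push_cast
              linear_combination (y : ℂ) * Complex.I_sq
            rw [e2, Complex.norm_real, Real.norm_of_nonneg (by positivity)]
          rw [e] at h1
          exact h1)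
      exact EReal.tendsto_coe.mpr ht
  · refine ⟨Complex.measurable_ofReal.comp hG1, 2, fun t ht => ?_⟩
    show ‖(G t : ℂ)‖ ≤ 2 * RC.phi S t
    rw [Complex.norm_real]
    exact hG2 t ht
  · intro h
    apply hG4
    filter_upwards [h] with t ht
    exact_mod_cast ht
  · exact fun τ hτ => hG3 τ hτ.le
  · intro t
    refine ⟨?_, Complex.ofReal_im _⟩
    show 0 ≤ ((RC.ff S t : ℝ) : ℂ).re
    rw [Complex.ofReal_re]
    exact tsum_nonneg fun j => RC.fj_nonneg S j t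
  · exact fun t => Complex.ofReal_im _

end Pool.Agent.Results.MP_27fa52_an.RightTranslatesFail
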